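import Pool.Agent.Q80.HC.Binary

/-!
MP_70ba79_ag, Q1: the degrees of affine curves in the affine varieties with a generically finite map to
the projective space of the binary forms of degree `n` (the `n`-th symmetric power of the projective
line), which is ramified, with any multiplicities, for instance multiplicity two, over the hyperplanes
of the forms which vanish at given points of the projective line. The number of hyperplanes which is
needed is linear in `n`: more than `4 * n` for the multiplicity two.

`p ⊂ k[x_0, …, x_N]` is a homogeneous prime ideal, the ideal of the projective variety `X̄` (of any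
dimension and with any singularities), `Q` a form of degree `e`, `D` its divisor on `X̄` and
`X = X̄ ∖ D`, an affine variety. `φ 0, …, φ n` are forms of the same degree which define a rational map
from `X̄` to `P^n` that is generically finite onto its image. By the ramification formula `X` is of log
general type under the conditions below, if `X̄` is smooth and the image is all of `P^n` (this is not
used): the hyperplanes are in general position.

A curve is given by its function field `L` and the finite set `S` of its places at infinity, a morphism
to `X` by its homogeneous coordinates `x`; `pht k x` is its degree and `canDeg k L` is `2 g - 2`.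

Definitions: `RamC`, `LangVojta` (`Q80/HC/Const.lean`), `Admissible` (`W601/VF/Cov4.lean`), `discForm`
(`Y216/RncD.lean`; the discriminant of `∑ l, f l * X ^ (n - l) * Y ^ l`, up to the factor `f n`), `pol`
(`Y216/RncA.lean`; the polynomial `∑ l, f l * Y ^ l`).
-/

set_option autoImplicit false

namespace Pool.Agent.Results.MP_70ba79_ag.BinaryFormCoverDegrees

open FF MvPolynomial Pool.Agent.W603.LV Pool.Agent.W603.PV Pool.Agent.W601.VF Pool.Agent.Q80.HC
open Pool.Agent.Y216 (discForm)

/-- Let `k` be an algebraically closed field of characteristic zero, `n ≥ 1`, let `(u i : v i)`,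
`i < q`, be distinct points of the projective line over `k`, and let `ℓ i` be the hyperplane of the
binary forms `∑ l, f l * X ^ (n - l) * Y ^ l` which vanish at `(u i : v i)`. Let `w i ≤ 1` and
`2 * n < ∑ i, w i`. Suppose that the map `φ` is ramified, outside `D`, over the hyperplanes `ℓ i` with
the weights `w i` (for instance `w i = 1 - 1 / m i` if every curve outside `D` meets it with
multiplicities at least `m i ≥ 2`, and `w i = 1` if the hyperplane is not met by the image of `X`).

(1) For every morphism `x` from a smooth projective curve of genus `g` to `X̄`, whose image is not in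
`D` and is not mapped into one of the hyperplanes `ℓ i`, the hyperplane `f n = 0` and the discriminant
hypersurface, with `N` points mapped to `D`,
`(∑ i, w i - 2 * n) * deg (φ x) ≤ n * max (2 * g - 2 + N) 0`.

(2) If moreover `X̄` is integral and not contained in `D`, the map is generically finite onto its image,
and the image is not contained in one of the hyperplanes `ℓ i`, in the hyperplane `f n = 0` or in the
discriminant hypersurface, then the conclusion of Q1 holds for `X = X̄ ∖ D` with a linear function `β`:
there are a proper closed subset `G = 0` and a constant `B` such that every morphism from a smooth affine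
curve `C` to `X` with image not contained in `G = 0` has degree at most `B max (χ(C), 0)`. -/
theorem result {k : Type} [Field k] [IsAlgClosed k] [CharZero k] {n : ℕ} (hn : 1 ≤ n) {q : ℕ}
    (u v : Fin q → k) (huv : ∀ i j, i ≠ j → u i * v j ≠ u j * v i) (w : Fin q → ℝ)
    (hw : ∀ i, w i ≤ 1) (hsum : 2 * (n : ℝ) < ∑ i, w i) {N : ℕ}
    (p : Ideal (MvPolynomial (Fin (N + 1)) k)) (Q : MvPolynomial (Fin (N + 1)) k) (e : ℕ)
    (φ : Fin (n + 1) → MvPolynomial (Fin (N + 1)) k)
    (hR : RamC p Q e φ (fun i (l : Fin (n + 1)) => u i ^ (n - (l : ℕ)) * v i ^ (l : ℕ)) w) :
    (∀ (L : Type) [Field L] [Algebra k L] [IsFF k L] (x : Fin (N + 1) → L), IsPt p x →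
      aeval x Q ≠ 0 →
      (∀ i, aeval x (lform φ fun l => u i ^ (n - (l : ℕ)) * v i ^ (l : ℕ)) ≠ 0) →
      img φ x (Fin.last n) ≠ 0 → aeval (img φ x) (discForm k n) ≠ 0 →
      (∑ i, w i - 2 * (n : ℝ)) * (pht k (img φ x) : ℝ) ≤
        (n : ℝ) * ((max (canDeg k L + (meets (k := k) Q e x).ncard) 0 : ℤ) : ℝ)) ∧
    ∀ [p.IsPrime],
      Admissible p Q e φ (fun i (l : Fin (n + 1)) => u i ^ (n - (l : ℕ)) * v i ^ (l : ℕ)) →
      φ (Fin.last n) ∉ p → aeval φ (discForm k n) ∉ p → LangVojta p Q e := by
  refine ⟨fun L _ _ _ x hx hxQ hxℓ hlast hdisc => ?_, ?_⟩
  · refine img_binary hn huv hw hsum hR L x hx hxQ hxℓ ?_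
    rw [map_mul, aeval_X]
    exact mul_ne_zero hlast hdisc
  · intro _ hA hlast hdisc
    exact (mainB hn huv hw hsum hR hA hlast hdisc).langVojta

end Pool.Agent.Results.MP_70ba79_ag.BinaryFormCoverDegrees
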