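import Pool.Agent.Q80.HC.Hyper

/-!
MP_70ba79_ag, Q1: the degrees of affine curves in the affine varieties with a generically finite map to
a projective space (onto the image) that is ramified, with any multiplicities, for instance multiplicity
two, over sufficiently many hyperplanes in general position.

`p ⊂ k[x_0, …, x_N]` is a homogeneous prime ideal, the ideal of the projective variety `X̄` (of any
dimension and with any singularities), `Q` a form of degree `e`, `D` its divisor on `X̄` and
`X = X̄ ∖ D`, an affine variety. `φ 0, …, φ n` are forms of the same degree which define a rational map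
from `X̄` to `P^n` that is generically finite onto its image. By the ramification formula `X` is of log
general type under the conditions below, if `X̄` is smooth and the image is all of `P^n` (this is not
used).

A curve is given by its function field `L` and the finite set `S` of its places at infinity, a morphism
to `X` by its homogeneous coordinates `x`; `pht k x` is its degree and `canDeg k L` is `2 g - 2`.

Definitions: `RamC`, `LangVojta` (`Q80/HC/Const.lean`), `Ind` (`W601/VF/Arr.lean`), `Admissible`
(`W601/VF/Cov4.lean`).
-/

set_option autoImplicit false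

namespace Pool.Agent.Results.MP_70ba79_ag.HyperplaneCoverDegrees

open FF MvPolynomial Pool.Agent.W603.LV Pool.Agent.W603.PV Pool.Agent.W601.VF Pool.Agent.Q80.HC

/-- Let `k` be an algebraically closed field of characteristic zero and `n ≥ 1`.

(1) Let `ℓ i` be `q` linear forms in `n + 1` variables over `k` which, as points of the dual space,
impose independent conditions on the forms of degree `d`, let `w i ≤ 1`, and put
`b = C(n + d - 1, n - 1)`. Suppose that `2 * b < ∑ i, w i`. Suppose that the map `φ` is ramified,
outside `D`, over the hyperplanes `ℓ i = 0` with the weights `w i` (for instance `w i = 1 - 1 / m i` if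
every curve outside `D` meets it with multiplicities at least `m i ≥ 2`, and `w i = 1` if `ℓ i = 0` is
not met by the image of `X`). Then for every morphism `x` from a smooth projective curve of genus `g`
to `X̄`, whose image is not in `D` and is not mapped into one of the hyperplanes, with `N` points
mapped to `D`, `(∑ i, w i - 2 * b) * deg (φ x) ≤ b * max (2 * g - 2 + N) 0`.

(2) If moreover `X̄` is integral and not contained in `D`, the map is generically finite onto its image,
and the image is not contained in one of the hyperplanes, then the conclusion of Q1 holds for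
`X = X̄ ∖ D` with a linear function `β`: there are a proper closed subset `G = 0` and a constant `B`
such that every morphism from a smooth affine curve `C` to `X` with image not contained in `G = 0` has
degree at most `B max (χ(C), 0)`.

(3) If `0 < s`, `2 * n ≤ K * s` and `q > C(n + K, n)`, there is a `d` with
`2 * C(n + d - 1, n - 1) < q * s` such that all `q`-tuples of linear forms outside a proper Zariski
closed set impose independent conditions on the forms of degree `d`. (So (1) and (2) apply with
`w i = s`, for instance `s = 1 / 2` for the multiplicity two.) -/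
theorem result {k : Type} [Field k] [IsAlgClosed k] [CharZero k] (n : ℕ) (hn : 1 ≤ n) :
    (∀ (d q : ℕ) (ℓ : Fin q → Fin (n + 1) → k) (w : Fin q → ℝ), Ind d ℓ → (∀ i, w i ≤ 1) →
      2 * (((n + d - 1).choose (n - 1) : ℕ) : ℝ) < ∑ i, w i →
      ∀ (N : ℕ) (p : Ideal (MvPolynomial (Fin (N + 1)) k)) (Q : MvPolynomial (Fin (N + 1)) k)
        (e : ℕ) (φ : Fin (n + 1) → MvPolynomial (Fin (N + 1)) k), RamC p Q e φ ℓ w →
        (∀ (L : Type) [Field L] [Algebra k L] [IsFF k L] (x : Fin (N + 1) → L), IsPt p x →
          aeval x Q ≠ 0 → (∀ i, aeval x (lform φ (ℓ i)) ≠ 0) →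
          (∑ i, w i - 2 * (((n + d - 1).choose (n - 1) : ℕ) : ℝ)) * (pht k (img φ x) : ℝ) ≤
            (((n + d - 1).choose (n - 1) : ℕ) : ℝ) *
              ((max (canDeg k L + (meets (k := k) Q e x).ncard) 0 : ℤ) : ℝ)) ∧
        ∀ [p.IsPrime], Admissible p Q e φ ℓ → LangVojta p Q e) ∧
    (∀ (s : ℝ) (K q : ℕ), 0 < s → 2 * n ≤ K * s → (n + K).choose n < q → ∃ d : ℕ,
      2 * (((n + d - 1).choose (n - 1) : ℕ) : ℝ) < q * s ∧
      ∃ Ψ : MvPolynomial (Fin q × Fin (n + 1)) k, Ψ ≠ 0 ∧
        ∀ ℓ : Fin q → Fin (n + 1) → k, eval (fun x => ℓ x.1 x.2) Ψ ≠ 0 → Ind d ℓ) := by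
  refine ⟨fun d q ℓ w hI hw hq N p Q e φ hR => ?_, fun s K q hs hK hq => ?_⟩
  · obtain ⟨h1, h2⟩ := main hn hI hw hq p Q e φ hR
    refine ⟨fun L _ _ _ x hx hxQ hxℓ => h1 L x hx hxQ hxℓ (by rw [map_one]; exact one_ne_zero), ?_⟩
    intro _ hA
    exact (h2 hA).langVojta
  · obtain ⟨d, h1, h2⟩ := numbers2 n hn s hs K q hK hq
    exact ⟨d, h2, generic h1⟩

end Pool.Agent.Results.MP_70ba79_ag.HyperplaneCoverDegrees
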