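import Pool.Agent.Q58.LG.Gen
import Pool.Agent.Q58.LG.Curve

/-!
MP_70ba79_ag, Q1: degrees of the maps from affine curves to affine varieties which are images of
varieties over generic pairs, with an explicit linear bound and without exceptional set.

Let `k` be a subfield of the complex numbers, with algebraic closure `k'` in `ℂ`. Let `V` be a closed
subset of `ℙⁿ`, defined over `k'`, of dimension at most `m`, and let `F_a` be finitely many forms
over `ℂ` of degrees `d_a`, whose coefficients are all together algebraically independent over `k`
(this holds for very general forms, if `k` is countable). Let `C` be a set of indices. Let `X₀` be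
the intersection of `V` with the hypersurfaces `F_c = 0`, `c ∈ C`, and `D₀` the union of the
hypersurfaces `F_b = 0`, `b ∉ C`.

Let `W = {Ψ = 0}` and `Z = {Φ = 0}` be projective varieties over `ℂ`, with a morphism `B : W → X₀`
given by forms of degree `e_B` and a surjective morphism `G : W → Z` given by forms of degree `e_G`,
with fibres of at most `r` points. (The forms have no common zeros on `W` and the degrees are
positive, so the morphisms are finite. For example `W` can be a closed subvariety of `X₀` or of a
finite cover of `X₀`, and `Z` its image in a projective space under a finite morphism; the branch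
locus and the singularities are arbitrary.) Let `Y = Z ∖ {H = 0}`, for a form `H` of positive degree
`h` on the space of `Z`, such that the inverse image of `Y` in `W` is mapped to the complement of
`D₀`. So `Y` is an affine variety, the quotient of a variety over the pair `(X₀, D₀)` by a finite
equivalence relation; in general `Y` has no morphism to `X₀`. For example, `Y` can be the complement
in `ℙⁿ` of the image of a generic hypersurface under a finite morphism from `ℙⁿ` to itself.

If `2 m + 2 r ≤ ∑ d_a + |C| + 1` then:

* all closed subvarieties of `Y` of positive dimension are of log general type;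
* for every morphism `f` from a smooth affine curve to `Y`, with smooth completion of genus `g` and
  with `s` points removed,
  `e_B (∑ d_a + |C| + 2 - 2 m - 2 r) deg f ≤ e_G max (2 g - 2 + s, 0)`.

So the conclusion of the question holds for `Y`, with the empty exceptional set and a linear
function of the Euler characteristic. Here `deg f` is the degree of the pullback of `O(1)` to the
completion of the curve, which is at least the degree of the closure of the image if `f` is not
constant.

In the first part, `L` is the function field of the subvariety, `w` is its dimension and `z` is its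
generic point, in homogeneous coordinates. A prime divisor `P` over the closure of the subvariety
has its centre in `H = 0` if and only if `h min_i ord_P (z_i) < ord_P (H (z))`. In the second part
`L` is the function field of the curve, `S` the set of the removed points and `f` the vector of
homogeneous coordinates of the morphism; `pht ℂ f` is the degree and `canDeg ℂ L` is `2 g - 2`.

The proof of the second part: the curve is lifted to `W`, over a curve of degree at most `r` over the
given one. For the field generated by the coordinates of its image in `X₀` there is a rational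
canonical form with logarithmic poles over `D₀` and with many zeros, and the degree of the
discriminant of this field is bounded by a multiple of the degree of the image.

The definitions are in `Pool/Agent/Y221/FQ/Defs.lean` (`Mor`, `Onto`, `FibresLe`, `im`),
`Pool/Agent/W602/GT/SpDefs.lean` (`Cone`, `SubVar`), `Pool/Agent/W602/GT/Defs.lean`
(`LogGeneralType`), `Pool/Agent/W603/PV/Hgt.lean` (`pord`, `pht`), `Pool/Agent/W603/LV/Ex.lean`
(`canDeg`), `Pool/Agent/TH145/MG/Dim.lean` (`DimLE`) and `Pool/Agent/Q58/FI/Eqs.lean` (`eqs V F`, the
equations of `V` together with the forms `F_c`).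
-/

set_option autoImplicit false

namespace Pool.Agent.Results.MP_70ba79_ag.ImagesOfPairs

open MvPolynomial FF
open Pool.Agent.TH145.MG (DimLE)
open Pool.Agent.W602.GT (IsForm Cone SubVar LogGeneralType val)
open Pool.Agent.W603.PV (pord pht)
open Pool.Agent.W603.LV (canDeg)
open Pool.Agent.Y221.FQ (Mor Onto FibresLe im)
open Pool.Agent.Q58.FI (eqs)

/-- The vector `f` of elements of the function field `L` is the vector of homogeneous coordinates of
a morphism to the complement of `H = 0` in `{Φ = 0}`, for a form `H` of degree `h`, from the smooth
projective curve with function field `L`, without the points in the finite set `S`. -/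
def MapTo {M : ℕ} {μ : Type} (Φ : μ → MvPolynomial (Fin (M + 1)) ℂ)
    (H : MvPolynomial (Fin (M + 1)) ℂ) (h : ℕ) {L : Type} [Field L] [Algebra ℂ L]
    (S : Finset (Place ℂ L)) (f : Fin (M + 1) → L) : Prop :=
  f ≠ 0 ∧ (∀ e, val f (Φ e) = 0) ∧ val f H ≠ 0 ∧ ∀ P ∉ S, P.ord (val f H) ≤ h * pord P f

theorem result {k : Type} [Field k] [Algebra k ℂ] {n m r l M h : ℕ}
    -- a closed subset of projective space, of dimension at most `m`
    (V : Set (MvPolynomial (Fin (n + 1)) (algebraicClosure k ℂ)))
    (hVh : ∀ f ∈ V, ∃ e, f.IsHomogeneous e) (hV : DimLE (algebraicClosure k ℂ) V m)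
    -- forms of degrees `d a`, whose coefficients are algebraically independent over `k`; the forms
    -- with indices in `C` are equations, the others give the boundary
    {A : Type} [Fintype A] (d : A → ℕ) (C : Finset A)
    (hd : 2 * m + 2 * r ≤ ∑ a, d a + C.card + 1)
    (F : A → MvPolynomial (Fin (n + 1)) ℂ) (hF : ∀ a, (F a).IsHomogeneous (d a))
    (hgen : AlgebraicIndependent k
      fun p : (a : A) × {I : Fin (n + 1) →₀ ℕ // I.degree = d a} => (F p.1).coeff p.2.1)
    -- projective varieties `W = {Ψ = 0}` and `Z = {Φ = 0}`
    {κ μ : Type} (Ψ : κ → MvPolynomial (Fin (l + 1)) ℂ) (hΨ : ∀ e, IsForm (Ψ e))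
    (Φ : μ → MvPolynomial (Fin (M + 1)) ℂ)
    -- a morphism from `W` to the intersection
    (B : Fin (n + 1) → MvPolynomial (Fin (l + 1)) ℂ)
    (hB : Mor Ψ (eqs V fun c : {a // a ∈ C} => F c.1) B)
    -- a surjective morphism from `W` to `Z`, with fibres of at most `r` points
    (G : Fin (M + 1) → MvPolynomial (Fin (l + 1)) ℂ) (hG : Mor Ψ Φ G)
    (hon : Onto Ψ Φ G) (hfib : FibresLe Ψ G r)
    -- the degrees of the forms
    (eB eG : ℕ) (hBe : ∀ j, (B j).IsHomogeneous eB) (hGe : ∀ j, (G j).IsHomogeneous eG)
    -- the boundary of `Z`
    (H : MvPolynomial (Fin (M + 1)) ℂ) (hH : H.IsHomogeneous h) (hh : 1 ≤ h)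
    (hbd : ∀ x ∈ Cone Ψ, val (im G x) H ≠ 0 → ∀ b, b ∉ C → val (im B x) (F b) ≠ 0) :
    -- the closed subvarieties of positive dimension are of log general type
    (∀ (L : Type) [Field L] [Algebra ℂ L] (w : ℕ) (z : Fin (M + 1) → L), 1 ≤ w →
      SubVar Φ L w z → val z H ≠ 0 →
      LogGeneralType ℂ L w fun P : Place ℂ L => h * pord P z < P.ord (val z H)) ∧
    -- the degrees of the maps from affine curves
    ∀ (L : Type) [Field L] [Algebra ℂ L] [IsFF ℂ L] (S : Finset (Place ℂ L))
      (f : Fin (M + 1) → L), MapTo Φ H h S f →
      eB * ((∑ a, d a + C.card + 2 : ℕ) - 2 * m - 2 * r) * pht ℂ f ≤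
        eG * max (canDeg ℂ L + S.card) 0 := by
  refine ⟨fun L _ _ w z hw hz hzH => Pool.Agent.Q58.LG.log_general_im C hVh hV hd hF hgen hΨ hB hG
    hon hfib hH hh hbd L w z hw hz hzH, ?_⟩
  rintro L _ _ _ S f ⟨hf0, hfΦ, hfH, hfS⟩
  have hf : ∃ j, f j ≠ 0 := Function.ne_iff.1 hf0
  have h1 : (eG : ℤ) * (canDeg ℂ L + S.card) ≤ eG * max (canDeg ℂ L + S.card) 0 :=
    mul_le_mul_of_nonneg_left (le_max_left _ _) (Int.natCast_nonneg _)
  have h2 : 0 ≤ (eG : ℤ) * max (canDeg ℂ L + S.card) 0 :=
    mul_nonneg (Int.natCast_nonneg _) (le_max_right _ _)
  rcases (Pool.Agent.Y221.AH.pht_nonneg (k := ℂ) hf).eq_or_lt with h0 | h0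
  · rw [← h0, mul_zero]
    exact h2
  · exact (Pool.Agent.Q58.LG.curve_im C hVh hV hd hF hgen hΨ hB hG hon hfib hH (fun _ _ => hh) hbd
      hBe hGe hf hfΦ hfH h0 S fun P hP => hfS P hP).trans h1

end Pool.Agent.Results.MP_70ba79_ag.ImagesOfPairs
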