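import Pool.Agent.Q309.AP.Deg

set_option autoImplicit false

/-!
# MP_70ba79_ag: degrees of morphisms in recurrent families

The Lang-Vojta conjecture asks for a bound for the degrees of the morphisms `C → X` from smooth affine
curves `C` to an affine variety `X` of log general type, outside of a proper closed subset `Exc`.
We prove such a bound, uniform in `X`, `Exc` and `C`, for all families of morphisms which are given by
recurrences, and show that the only obstruction are the images of `G_m`.

Let `X` be a closed subset of the affine `n`-space over `ℂ` defined by equations of degree at most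
`D`, and let `Exc` be the intersection of `X` with a hypersurface `G = 0` of degree at most `D`.
Let `L` be any field which contains `ℂ`, for instance the function field of a smooth affine curve `C`
(then the morphisms `C → X` are points of `X` over `L`, and their generic points are outside of
`G = 0` if and only if their images are not contained in `Exc`).

`MonSeq r e M x`: the sequence `x 0, x 1, ...` of points over `L` satisfies, for `m ≤ M`, recurrences
`x (m + r) j = b(t m) + ∑ a_k(t m) x (m + k) j`, `k < r`, with polynomials `a_k`, `b` over `L` of degree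
at most `e`, and different parameters `t m` in `L` with `t (m + 1) = α t m + β` (for instance
`t m = m`, or `t m = q ^ m`). `BdSeq v h r e M x`: moreover, the coefficients of the `a_k` and `b` and
the first `r` points are of size at most `h`, and the `t m` of size at most `1`, for the valuation `v`
of `L` (for instance, `v` comes from the order of the pole at a point of `C` at infinity).

(1) For all `n`, `D`, `r`, `e` there is ONE number `N` such that for ALL `X` and `G` one of the
following holds.

Either all nonconstant morphisms `G_m → X` of degree at most `N` have their image in `G = 0`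
(`GmAff`). Then for ALL fields `L` which contain `ℂ`, all `M` and all sequences of complexity
`(r, e)` whose members `x 0, ..., x M` are in `X` and not in `G = 0`, there are at most `N` different
points among them, and their size is at most `h ^ N` for all valuations: if `L` is the
function field of `C`, the pole of `x m` at each point of `C` at infinity has at most `N` times the
order of the data, so that the degree of all these morphisms is at most `N` times the degree of the
data. The number `N` depends neither on `C` nor on `X`, `G`, `m`, `M`.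

Or there is a morphism from `G_m` to `X` of degree at most `N` whose image is not contained in
`G = 0`. Then there is an infinite sequence of morphisms `x m` from `G_m` to `X` (points over `ℂ(u)`
whose coordinates are Laurent polynomials) outside of `G = 0` of complexity `(N + 1, 0)`, with data of
size at most `h ^ (N (N + 1))` for all valuations of `ℂ(u)` which are trivial on `ℂ`, where `h` is
a bound for `u` and `1 / u`, and the degrees of the Laurent polynomials `x m j` are unbounded.

(2) If `X` is Brody hyperbolic (all holomorphic maps from `ℂ` to `X` are constant), then we are in the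
first case, with `G = 1`: the bounds hold for all recurrent families of morphisms.
-/

namespace Pool.Agent.Results.MP_70ba79_ag.RecurrentMorphisms

open MvPolynomial Pool.Agent.Q309.AP

theorem result (n D r e : ℕ) : ∃ N : ℕ,
    (∀ S : Set (MvPolynomial (Fin n) ℂ), (∀ F ∈ S, F.totalDegree ≤ D) →
      ∀ G : MvPolynomial (Fin n) ℂ, G.totalDegree ≤ D →
        (GmAff S G N ∧ ∀ (L : Type) [Field L] [Algebra ℂ L] (M : ℕ) (x : ℕ → Fin n → L),
          (∀ m ≤ M, (∀ F ∈ S, aeval (x m) F = 0) ∧ aeval (x m) G ≠ 0) →
            (MonSeq r e M x → ∃ I : Finset ℕ, I.card ≤ N ∧ ∀ m ≤ M, ∃ i ∈ I, i ≤ m ∧ x i = x m) ∧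
            (∀ (Γ : Type) [LinearOrderedCommGroupWithZero Γ] (v : Valuation L Γ) (h : Γ), 1 ≤ h →
              BdSeq v h r e M x → ∀ m ≤ M, ∀ j, v (x m j) ≤ h ^ N)) ∨
        (¬ GmAff S G N ∧ ∃ x : ℕ → Fin n → RatFunc ℂ,
          (∀ m, (∀ F ∈ S, aeval (x m) F = 0) ∧ aeval (x m) G ≠ 0) ∧
          (∀ M, MonSeq (N + 1) 0 M x) ∧
          (∀ (Γ : Type) [LinearOrderedCommGroupWithZero Γ] (v : Valuation (RatFunc ℂ) Γ) (h : Γ),
            (∀ c : ℂ, v (algebraMap ℂ (RatFunc ℂ) c) ≤ 1) → v RatFunc.X ≤ h → v RatFunc.X⁻¹ ≤ h →
              ∀ M, BdSeq v (h ^ (N * (N + 1))) (N + 1) 0 M x) ∧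
          (∀ m j, ∃ K, LaurLe K (x m j)) ∧ ∀ K, ∃ m j, ¬ LaurLe K (x m j))) ∧
    (∀ S : Set (MvPolynomial (Fin n) ℂ), (∀ F ∈ S, F.totalDegree ≤ D) →
      (∀ f : ℂ → Fin n → ℂ, (∀ j, Differentiable ℂ fun z => f z j) →
        (∀ z, ∀ F ∈ S, eval (f z) F = 0) → ∀ z w, f z = f w) →
      ∀ (L : Type) [Field L] [Algebra ℂ L] (M : ℕ) (x : ℕ → Fin n → L),
        (∀ m ≤ M, ∀ F ∈ S, aeval (x m) F = 0) →
          (MonSeq r e M x → ∃ I : Finset ℕ, I.card ≤ N ∧ ∀ m ≤ M, ∃ i ∈ I, i ≤ m ∧ x i = x m) ∧
          (∀ (Γ : Type) [LinearOrderedCommGroupWithZero Γ] (v : Valuation L Γ) (h : Γ), 1 ≤ h →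
            BdSeq v h r e M x → ∀ m ≤ M, ∀ j, v (x m j) ≤ h ^ N)) := by
  obtain ⟨N, hN⟩ := aff_uniform n D r e
  refine ⟨N, fun S hS G hG => ?_, fun S hS hyp L _ _ M x hX => ?_⟩
  · by_cases hgm : GmAff S G N
    · refine Or.inl ⟨hgm, fun L _ _ M x hX => ⟨fun hx => hN S hS G hG hgm L M x hx hX,
        fun Γ _ v h h1 hx => hx.size h1 (hN S hS G hG hgm L M x hx.monSeq hX)⟩⟩
    · exact Or.inr ⟨hgm, exists_fam hgm⟩
  · have h1 : ∀ m ≤ M, (∀ F ∈ S, aeval (x m) F = 0) ∧ aeval (x m) (1 : MvPolynomial (Fin n) ℂ) ≠ 0 :=
      fun m hm => ⟨hX m hm, by rw [map_one]; exact one_ne_zero⟩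
    have hG : (1 : MvPolynomial (Fin n) ℂ).totalDegree ≤ D := by
      rw [totalDegree_one]
      exact Nat.zero_le _
    have hgm := gmAff_of_brody hyp (1 : MvPolynomial (Fin n) ℂ) N
    exact ⟨fun hx => hN S hS 1 hG hgm L M x hx h1,
      fun Γ _ v h hh hx => hx.size hh (hN S hS 1 hG hgm L M x hx.monSeq h1)⟩

end Pool.Agent.Results.MP_70ba79_ag.RecurrentMorphisms
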